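import Pool.Agent.U174.AK.Stm

/-!
# Project AO (helper174): henselian valuations of almost real closed fields which are definable with the
# order are definable without it (MP_706417_lc, full answer)

THEOREM.  Let `K` be a field with an ordering `P` (set of positive elements), `V` a henselian valuation ring whose
residue field has characteristic zero and consists of squares and negatives of squares, `O` a valuation ring
containing `V`.  If `O` is definable in `(K, P)` with parameters then it is definable in the ring `K` with parameters.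

PROOF.  Let `N` be an ultrapower of `(K, P, V, O)` and `F0` a countable henselian subfield of `N` which contains the
parameters, has a pure value group and a section.  If `O` is not definable in the ring `N` then there are `x` in `O`
and `y` not in `O` of the same type over `F0` in the language of rings (DEFN).  Both lie in a countable elementary
substructure `M` of `(N, P, V, O)` with an automorphism `σ` of the field `M` over `F0` with `σ x = y` (HOM1, HOM2).
So `M` has a second ordering `P2 = σ⁻¹ P`, and the valuation ring `V2 = σ⁻¹ V` is contained in `O2 = σ⁻¹ O`, which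
is defined in `(M, P2)` by the same formula as `O` in `(M, P)`; `x` is in `O` but not in `O2`.  In the ultrapower
`M'` of `M` a back and forth argument with embeddings `j` such that `v2 (j z) = v2 z`, `j z` and `z` have the same
residue and `j` takes `P` to `P2` (STEP, BF) gives `j` with: `x ∈ O ↔ j x ∈ O2`; since `v2 (j x) = v2 x` and `V2 ≤ O2`
this is equivalent to `x ∈ O2`, a contradiction.
-/

set_option autoImplicit false

namespace Pool.Agent.U174.AO

open IsLocalRing Filter Pool.Agent.U174.AK

/-! ### formulas -/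

/-- Formulas with the free variables `0, …, n - 1` of the language of rings with unary predicates `i : ι`; the terms
are polynomials with integer coefficients. -/
inductive Fm (ι : Type) : ℕ → Type
  | zero {n : ℕ} (p : MvPolynomial (Fin n) ℤ) : Fm ι n
  | pred {n : ℕ} (i : ι) (p : MvPolynomial (Fin n) ℤ) : Fm ι n
  | not {n : ℕ} (φ : Fm ι n) : Fm ι n
  | and {n : ℕ} (φ ψ : Fm ι n) : Fm ι n
  | ex {n : ℕ} (φ : Fm ι (n + 1)) : Fm ι n

/-- Truth of a formula; the predicates are the sets `Q i`, the variable `0` is the last one which is bound. -/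
def Fm.Holds {ι K : Type} [CommRing K] (Q : ι → Set K) : {n : ℕ} → Fm ι n → (Fin n → K) → Prop
  | _, .zero p, x => MvPolynomial.aeval x p = 0
  | _, .pred i p, x => MvPolynomial.aeval x p ∈ Q i
  | _, .not φ, x => ¬ Fm.Holds Q φ x
  | _, .and φ ψ, x => Fm.Holds Q φ x ∧ Fm.Holds Q ψ x
  | _, .ex φ, x => ∃ y : K, Fm.Holds Q φ (Fin.cons y x)

/-- no predicates -/
def noQ (K : Type) : Empty → Set K := fun i => i.elim

/-- `S` is definable with parameters. -/
def Def {ι K : Type} [CommRing K] (Q : ι → Set K) (S : Set K) : Prop :=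
  ∃ (n : ℕ) (φ : Fm ι (n + 1)) (b : Fin n → K), ∀ x : K, x ∈ S ↔ φ.Holds Q (Fin.cons x b)

/-- renaming of variables -/
noncomputable def Fm.ren {ι : Type} : {n m : ℕ} → (Fin n → Fin m) → Fm ι n → Fm ι m
  | _, _, f, .zero p => .zero (MvPolynomial.rename f p)
  | _, _, f, .pred i p => .pred i (MvPolynomial.rename f p)
  | _, _, f, .not φ => .not (φ.ren f)
  | _, _, f, .and φ ψ => .and (φ.ren f) (ψ.ren f)
  | n, m, f, .ex φ =>
    .ex (φ.ren (Fin.cons (α := fun _ : Fin (n + 1) => Fin (m + 1)) 0 (fun i => (f i).succ)))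

/-- ring formulas as formulas with predicates -/
def Fm.lift {ι : Type} : {n : ℕ} → Fm Empty n → Fm ι n
  | _, .zero p => .zero p
  | _, .pred i _ => i.elim
  | _, .not φ => .not φ.lift
  | _, .and φ ψ => .and φ.lift ψ.lift
  | _, .ex φ => .ex φ.lift

/-- BAS: basic properties of formulas. -/
def S_BAS : Prop :=
  (∀ (ι K : Type) [CommRing K] (Q : ι → Set K) (n m : ℕ) (f : Fin n → Fin m) (φ : Fm ι n) (x : Fin m → K),
    (φ.ren f).Holds Q x ↔ φ.Holds Q (fun i => x (f i))) ∧
  (∀ (ι K : Type) [CommRing K] (Q : ι → Set K) (n : ℕ) (φ : Fm Empty n) (x : Fin n → K),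
    (φ.lift : Fm ι n).Holds Q x ↔ φ.Holds (noQ K) x) ∧
  ∀ (ι : Type), Countable ι → ∀ n : ℕ, Countable (Fm ι n)

/-- LOSF: the theorem of Łoś (induction on the formula; `π` is surjective and commutes with polynomials). -/
def S_LOSF : Prop := ∀ (ι K K' : Type) [Field K] [Field K'] (O : ValuationSubring K) (O' : ValuationSubring K')
  (π : (ℕ → K) →+* K'), Ult O O' π → ∀ (Q : ι → Set K) (Q' : ι → Set K'),
  (∀ i (x : ℕ → K), π x ∈ Q' i ↔ ∀ᶠ j in (hyperfilter ℕ : Filter ℕ), x j ∈ Q i) →
  ∀ (n : ℕ) (φ : Fm ι n) (x : Fin n → ℕ → K),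
    φ.Holds Q' (fun i => π (x i)) ↔ ∀ᶠ j in (hyperfilter ℕ : Filter ℕ), φ.Holds Q (fun i => x i j)

/-- countable saturation -/
def Sat {ι K : Type} [CommRing K] (Q : ι → Set K) : Prop :=
  ∀ (Φ : ℕ → Σ n : ℕ, Fm ι (n + 1)) (b : ∀ i : ℕ, Fin (Φ i).1 → K),
    (∀ m : ℕ, ∃ y : K, ∀ i < m, (Φ i).2.Holds Q (Fin.cons y (b i))) →
    ∃ y : K, ∀ i, (Φ i).2.Holds Q (Fin.cons y (b i))

/-- SATF: ultrapowers are countably saturated (diagonal argument: for each `j` take the largest `m ≤ j` for which a
solution of the first `m` conditions exists at the coordinate `j`; Łoś for the existential formulas). -/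
def S_SATF : Prop := ∀ (ι K K' : Type) [Field K] [Field K'] (O : ValuationSubring K) (O' : ValuationSubring K')
  (π : (ℕ → K) →+* K'), Ult O O' π → ∀ (Q : ι → Set K) (Q' : ι → Set K'),
  (∀ i (x : ℕ → K), π x ∈ Q' i ↔ ∀ᶠ j in (hyperfilter ℕ : Filter ℕ), x j ∈ Q i) → Sat Q'

section
variable {N : Type} [Field N]

/-- the tuples `c` and `d` have the same type over `F0` in the language of rings -/
def SameT (F0 : Subfield N) {k : ℕ} (c d : Fin k → N) : Prop :=
  ∀ (n : ℕ) (φ : Fm Empty (k + n)) (b : Fin n → N), (∀ i, b i ∈ F0) →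
    (φ.Holds (noQ N) (Fin.append c b) ↔ φ.Holds (noQ N) (Fin.append d b))

/-- `M` is an elementary substructure of `N` with the predicates `Q` -/
def Elem {ι : Type} (Q : ι → Set N) (M : Subfield N) : Prop :=
  ∀ (n : ℕ) (φ : Fm ι n) (b : Fin n → M),
    φ.Holds (fun i => {z : M | (z : N) ∈ Q i}) b ↔ φ.Holds Q (fun i => (b i : N))

end

/-- DEFN: if `Q i₀` is not definable in the ring `N` then some `x` in `Q i₀` and `y` not in `Q i₀` have the same type
over `F0`.  (Otherwise by saturation for each `x ∈ Q i₀` there is a ring formula over `F0` which is true for `x` and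
implies `Q i₀`; by saturation again finitely many of these formulas, countable in number, cover `Q i₀`.) -/
def S_DEFN : Prop := ∀ (ι N : Type) [Field N] (Q : ι → Set N) (i₀ : ι), Sat Q → ∀ F0 : Subfield N, Countable F0 →
  ¬ Def (noQ N) (Q i₀) → ∃ x y : N, x ∈ Q i₀ ∧ y ∉ Q i₀ ∧ SameT F0 (fun _ : Fin 1 => x) (fun _ : Fin 1 => y)

/-- HOM1: countable elementary substructures whose ring is homogeneous over `F0`.  (Close `F0 ∪ {x, y}` under the
field operations, witnesses for existential formulas, and witnesses `d'` for the homogeneity, which exist by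
saturation of `N`; `M = ⋃ E_k`.) -/
def S_HOM1 : Prop := ∀ (ι N : Type) [Field N] (Q : ι → Set N), Countable ι → Sat Q →
  ∀ F0 : Subfield N, Countable F0 → ∀ x y : N,
  ∃ M : Subfield N, Countable M ∧ F0 ≤ M ∧ x ∈ M ∧ y ∈ M ∧ Elem Q M ∧
    ∀ (k : ℕ) (c d : Fin k → N), (∀ i, c i ∈ M) → (∀ i, d i ∈ M) → SameT F0 c d →
      ∀ c' ∈ M, ∃ d' ∈ M, SameT F0 (Fin.snoc (α := fun _ => N) c c') (Fin.snoc (α := fun _ => N) d d')

/-- HOM2: back and forth in a countable homogeneous field. -/
def S_HOM2 : Prop := ∀ (N : Type) [Field N] (F0 M : Subfield N), Countable M → F0 ≤ M →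
  (∀ (k : ℕ) (c d : Fin k → N), (∀ i, c i ∈ M) → (∀ i, d i ∈ M) → SameT F0 c d →
    ∀ c' ∈ M, ∃ d' ∈ M, SameT F0 (Fin.snoc (α := fun _ => N) c c') (Fin.snoc (α := fun _ => N) d d')) →
  ∀ x y : N, ∀ (hx : x ∈ M) (hy : y ∈ M), SameT F0 (fun _ : Fin 1 => x) (fun _ : Fin 1 => y) →
  ∃ σ : M ≃+* M, σ ⟨x, hx⟩ = ⟨y, hy⟩ ∧ ∀ z : M, (z : N) ∈ F0 → σ z = z

/-- every residue is a square or the negative of a square -/
def Euc {K : Type} [Field K] (V : ValuationSubring K) : Prop :=
  ∀ r : ResidueField V, (∃ s, r = s ^ 2) ∨ ∃ s, r = -s ^ 2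

/-- `P` is the set of the positive elements of an ordering of the field `K` -/
structure Cone {K : Type} [Field K] (P : Set K) : Prop where
  zero : (0 : K) ∉ P
  tot : ∀ x : K, x ≠ 0 → x ∈ P ∨ -x ∈ P
  add : ∀ x ∈ P, ∀ y ∈ P, x + y ∈ P
  mul : ∀ x ∈ P, ∀ y ∈ P, x * y ∈ P

/-- HENM: the valuation of an elementary subfield is henselian.  (Hensel's lemma for the polynomials of degree `d` is
expressed by formulas; only the existential quantifier for the root is needed: `x` is in the maximal ideal if it is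
in `V` and no `w` in `V` has `w x = 1`.)  The residue field has characteristic zero, and `Euc`. -/
def S_HENM : Prop := ∀ (ι N : Type) [Field N] (Q : ι → Set N) (i₁ : ι) (V : ValuationSubring N),
  Q i₁ = (V : Set N) → ∀ M : Subfield N, Elem Q M →
  (HenselianLocalRing V → HenselianLocalRing (V.comap M.subtype)) ∧
  (CharZero (ResidueField V) → CharZero (ResidueField (V.comap M.subtype))) ∧
  (Euc V → Euc (V.comap M.subtype))

/-- TRU: transfer to the ultrapower. -/
def S_TRU : Prop := ∀ (K K' : Type) [Field K] [Field K'] (O : ValuationSubring K) (O' : ValuationSubring K')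
  (π : (ℕ → K) →+* K'), Ult O O' π → (Euc O → Euc O') ∧
  ∀ (P : Set K) (P' : Set K'), (∀ x : ℕ → K, π x ∈ P' ↔ ∀ᶠ j in (hyperfilter ℕ : Filter ℕ), x j ∈ P) →
    Cone P → Cone P'

/-- SGN: the sign of a unit is determined by its residue.  (If the residue is a square, then the unit is a square by
Hensel's lemma; otherwise the residue is the negative of a square.) -/
def S_SGN : Prop := ∀ (K : Type) [Field K] (V : ValuationSubring K), HenselianLocalRing V →
  CharZero (ResidueField V) → Euc V → ∀ P : Set K, Cone P → ∀ u : K, V.valuation u = 1 →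
  (u ∈ P ↔ ∃ r : ResidueField V, rs V u = r ^ 2)

/-- LTS: the lifting theorem `S_LT` with a prescribed image `t` of the section.  (Same proof as
`Pool/Agent/U88/AK/LT.lean`, with the given `t` instead of that from `S_SEC`.) -/
def S_LTS : Prop := ∀ (F F' L : Type) [Field F] [Field F'] [Field L]
  (OF : ValuationSubring F) (O' : ValuationSubring F') (P : ValuationSubring L) (s : OF.ValueGroupˣ →* Fˣ)
  (s' : O'.ValueGroupˣ →* F'ˣ) (ι : VEmb OF O') (j : VEmb OF P) (ρ : ResidueField O' →+* ResidueField P)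
  (ν : O'.ValueGroup →*₀ P.ValueGroup), Countable F' → HenselianLocalRing O' → CharZero (ResidueField O') →
  Big P → StrictMono ν → Sec OF s → Sec O' s' →
  (∀ γ : OF.ValueGroupˣ, ((s' (Units.map ι.val γ) : F'ˣ) : F') = ι.f ((s γ : Fˣ) : F)) →
  (∀ r, ρ (ι.res r) = j.res r) → (∀ γ, ν (ι.val γ) = j.val γ) →
  ∀ t : O'.ValueGroupˣ →* Lˣ, (∀ γ : O'.ValueGroupˣ, P.valuation ((t γ : Lˣ) : L) = ν γ) →
  (∀ γ : OF.ValueGroupˣ, ((t (Units.map ι.val γ) : Lˣ) : L) = j.f ((s γ : Fˣ) : F)) →
  ∃ j' : VEmb O' P, (∀ x, j'.f (ι.f x) = j.f x) ∧ (∀ r, j'.res r = ρ r) ∧ (∀ γ, j'.val γ = ν γ) ∧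
    ∀ γ : O'.ValueGroupˣ, j'.f ((s' γ : F'ˣ) : F') = ((t γ : Lˣ) : L)

/-- The positions of the back and forth argument: two embeddings `i`, `j` of the countable field `F` (with a section
`s` of its valuation) into `N` with the same residues and values, `i` with the ordering `P1` and `j` with the
ordering `P2`. -/
structure Pos {N : Type} [Field N] (V : ValuationSubring N) (P1 P2 : Set N) {F : Type} [Field F]
    (OF : ValuationSubring F) (s : OF.ValueGroupˣ →* Fˣ) (i j : VEmb OF V) : Prop where
  cnt : Countable F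
  sec : Sec OF s
  puri : Pure i
  purj : Pure j
  val : ∀ γ, i.val γ = j.val γ
  res : ∀ r, i.res r = j.res r
  sgn : ∀ x : F, i.f x ∈ P1 ↔ j.f x ∈ P2

/-- STEP: one step.  (NICE for `i` and the constant sequence `a` gives `F'`, `O'`, `s'`, `ι`, `i'`; SEC gives
`t : O'.ValueGroupˣ →* Nˣ` with the values of `i'` and `t (ι γ) = j (s γ)`; change the signs of `t` such that
`t γ ∈ P2 ↔ i' (s' γ) ∈ P1`, this is a character; LTS with `ρ = i'.res`, `ν = i'.val` gives `j'`; every `x` is
`s' (v x)` times a unit, so `j'` preserves the signs by SGN.) -/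
def S_STEP : Prop := ∀ (N : Type) [Field N] (V : ValuationSubring N), Big V → Euc V → ∀ (P1 P2 : Set N), Cone P1 →
  Cone P2 → ∀ (F : Type) [Field F] (OF : ValuationSubring F) (s : OF.ValueGroupˣ →* Fˣ) (i j : VEmb OF V),
  Pos V P1 P2 OF s i j → ∀ a : N, ∃ (F' : Type) (_ : Field F') (O' : ValuationSubring F')
    (s' : O'.ValueGroupˣ →* F'ˣ) (ι : F →+* F') (i' j' : VEmb O' V), Pos V P1 P2 O' s' i' j' ∧
    (∀ x, i'.f (ι x) = i.f x) ∧ (∀ x, j'.f (ι x) = j.f x) ∧ ∃ x, i'.f x = a

/-- BF: corresponding elements satisfy the same formulas (induction on the formula). -/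
def S_BF : Prop := ∀ (N : Type) [Field N] (V : ValuationSubring N), Big V → Euc V → ∀ (P1 P2 : Set N), Cone P1 →
  Cone P2 → ∀ (n : ℕ) (φ : Fm Unit n) (F : Type) [Field F] (OF : ValuationSubring F)
  (s : OF.ValueGroupˣ →* Fˣ) (i j : VEmb OF V), Pos V P1 P2 OF s i j → ∀ x : Fin n → F,
    (φ.Holds (fun _ => P1) (fun k => i.f (x k)) ↔ φ.Holds (fun _ => P2) (fun k => j.f (x k)))

/-- PURU: the diagonal embedding into the ultrapower. -/
def S_PURU : Prop := ∀ (F K K' : Type) [Field F] [Field K] [Field K'] (OF : ValuationSubring F)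
  (O : ValuationSubring K) (O' : ValuationSubring K') (π : (ℕ → K) →+* K'), Ult O O' π →
  ∀ i : VEmb OF O, Pure i → ∃ i' : VEmb OF O', (∀ x, i'.f x = π (fun _ => i.f x)) ∧ Pure i'

/-- PURS: the same embedding into a subfield with the transported valuation. -/
def S_PURS : Prop := ∀ (F N : Type) [Field F] [Field N] (OF : ValuationSubring F) (V : ValuationSubring N)
  (i : VEmb OF V) (M : Subfield N) (σ : M ≃+* M), Pure i → (∀ x, i.f x ∈ M) →
  (∀ z : M, (∃ x, (z : N) = i.f x) → σ z = z) →
  ∃ i' : VEmb OF ((V.comap M.subtype).comap (σ : M →+* M)), (∀ x, ((i'.f x : M) : N) = i.f x) ∧ Pure i'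

/-- TRS: transport of the valuation by the automorphism. -/
def S_TRS : Prop := ∀ (M : Type) [Field M] (V : ValuationSubring M) (σ : M ≃+* M),
  (HenselianLocalRing V → HenselianLocalRing (V.comap (σ : M →+* M))) ∧
  (CharZero (ResidueField V) → CharZero (ResidueField (V.comap (σ : M →+* M)))) ∧
  (Euc V → Euc (V.comap (σ : M →+* M)))

/-- MAIN: the theorem in terms of `Cone` and `Euc`. -/
def S_MAIN : Prop := ∀ (K : Type) [Field K] (P : Set K) (V O : ValuationSubring K), Cone P →
  HenselianLocalRing V → CharZero (ResidueField V) → Euc V → V ≤ O →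
  Def (fun _ : Unit => P) (O : Set K) → Def (noQ K) (O : Set K)

/-- RCF: the statement for almost real closed fields.  `W` is a henselian valuation ring with real closed residue
field, `O` any henselian valuation ring.  (Valuation rings whose units near one are squares are convex, so `O` and
`W` are comparable.  If `W ≤ O` take `V = W`, otherwise `V = O`: if `u` is a unit of `O ≤ W`, its residue modulo `W`
is `± r²`, so by Hensel's lemma for `W` the element `± u` is a square in `K`.) -/
def S_RCF : Prop := S_MAIN → ∀ (K : Type) [Field K] [LinearOrder K] [IsStrictOrderedRing K]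
  (W O : ValuationSubring K), HenselianLocalRing W → IsRealClosed (ResidueField W) → HenselianLocalRing O →
  Def (fun _ : Unit => {x : K | 0 < x}) (O : Set K) → Def (noQ K) (O : Set K)

end Pool.Agent.U174.AO
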